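import Pool.Agent.H37.CPX.Targets

/-!
# Cutting planes of any depth, row LEF: leaves (helper30)
-/

namespace Pool.Agent.H30.CPX

open Finset Pool.Agent.H37.CPX

theorem spr_mono {N : ℕ} {Q : Type} {E c c' : ℝ} (h : c ≤ c') {T : Finset (Fin N)}
    {A : Finset (Fin N → Q)} (hA : Spr E c T A) : Spr E c' T A := by
  intro U hU hd u
  exact (hA U hU hd u).trans (mul_le_mul_of_nonneg_right h (Nat.cast_nonneg _))

theorem vol_pos {N P : ℕ} (hP : 16 ≤ P) : 0 < vol N P := by
  unfold vol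
  have : (0 : ℝ) < P := by
    have : 0 < P := by omega
    exact_mod_cast this
  positivity

theorem tau_nonneg (m k w0 P : ℕ) : 0 ≤ tau m k w0 P := by
  unfold tau
  positivity

theorem pf_LEF (hN : S_NEG) (hP : S_POS) (hU : S_NUB) : S_LEF := by
  intro N m k w0 P z lam s Tri Xs Ys j hc hTri hal
  obtain ⟨T, J, X', Y', hX, hY, hXY, hB, hr⟩ := hal
  have hP16 := hc.hP
  have h1 : (X'.card : ℝ) * Y'.card ≤ 2 * ∑ x ∈ X', ∑ y ∈ Y', s.D (pt x y) := by
    refine hP N m k w0 P s T J X' Y' hc.hk hc.hP hc.hPe hc.hm ?_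
    exact { flX := hB.flX, flY := hB.flY, nb := hB.nb, clo := hB.clo, card := hB.card,
            con := hB.con,
            spX := spr_mono (by norm_num) hB.spX,
            spY := spr_mono (pow_le_pow_right₀ (by norm_num) (Nat.le_succ _)) hB.spY }
  have h2 := hN N m k w0 P s X' Y' j (by omega) (fun x hx y hy => hTri x y (hXY x hx y hy))
  have h3 := hU N m k w0 P z lam 0 0 0 0 0 hc (Nat.zero_le _) (Nat.zero_le _) (Nat.zero_le _)
  have h4 := h3.2.2.2.2
  have h5 := vol_pos (N := N) hP16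
  have h6 := tau_nonneg m k w0 P
  have h7 := le_abs_self (∑ x ∈ X', ∑ y ∈ Y', s.D (pt x y))
  have h8 : rho k P z lam * vol N P ≤ 2 * (tau m k w0 P * vol N P) := by linarith
  nlinarith

end Pool.Agent.H30.CPX
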