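import Pool.Agent.H37.CPX.Targets

/-!
# Cutting planes of any depth, row REC: the recursion (helper30)
-/

namespace Pool.Agent.H30.CPX

open Finset Pool.Agent.H37.CPX

theorem pf_REC (hT : S_TRM) (hH : S_STH) (hM : S_STM) (hX : S_STX) : S_REC := by
  intro N m k w0 P z lam s u w Xs Ys hc hal n
  induction n with
  | zero =>
    intro st _ h
    exact absurd h (Nat.not_lt_zero _)
  | succ n ih =>
    intro st hok hm A hA hfl
    have ih' : IH s P z u w Xs Ys (st.mea s z) := by
      intro st' hok' hm' A' hA' hfl'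
      exact ih st' hok' (lt_of_lt_of_le hm' (Nat.lt_succ_iff.1 hm)) A' hA' hfl'
    by_cases h1 : 8 * z < st.nh ∨ z < st.nl
    · exact hT N m k w0 P z lam s u w Ys st A hc hok hfl h1
    · rw [not_or, not_lt, not_lt] at h1
      refine hX N m k w0 P z lam s u w Xs Ys st A hc hok ih' hA hfl ?_
      intro R hR hsp hlt
      have hflR : Flat (st.T s) R := fun x hx x' hx' i hi => hfl x (hR hx) x' (hR hx') i hi
      exact hM N m k w0 P z lam s u w Xs Ys st R hc hok ih' (hR.trans hA) hflR
        (hH N m k w0 P z lam s u w Xs Ys st R hc hok h1.1 h1.2 hal ih' (hR.trans hA) hflR hsp hlt)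

end Pool.Agent.H30.CPX
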