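import Pool.Agent.H37.CPX.Targets

/-!
# Cutting planes of any depth, row STM: spread `A`, all `B` (helper30)
-/

namespace Pool.Agent.H30.CPX

open Finset Pool.Agent.H37.CPX

theorem pp_mono {N : ℕ} {QX QY : Type} {Tri : (Fin N → QX) → (Fin N → QY) → Prop}
    {D : (Fin N → QX) → (Fin N → QY) → ℝ} {cl : Finset (Fin N → QY) → Prop}
    {A : Finset (Fin N → QX)} {a ka M a' ka' M' : ℝ} (h : PP Tri D cl A a ka M)
    (ha : a ≤ a') (hk : ka ≤ ka') (hM : M ≤ M') : PP Tri D cl A a' ka' M' := by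
  obtain ⟨E, hE, hEa, h⟩ := h
  refine ⟨E, hE, hEa.trans ha, fun B hB => ?_⟩
  obtain ⟨E', hE', hEk, h'⟩ := h B hB
  refine ⟨E', hE', hEk.trans (mul_le_mul_of_nonneg_right hk (Real.sqrt_nonneg _)), ?_⟩
  intro F hF G hG h1 h2 h3
  exact (h' F hF G hG h1 h2 h3).trans hM

theorem cyl_sub {N : ℕ} {Q : Type} (U : Finset (Fin N)) (u : U → Q)
    (A : Finset (Fin N → Q)) : cyl U u A ⊆ A := by
  classical
  intro x hx
  unfold cyl at hx
  exact (mem_filter.1 hx).1

theorem pf_STM (hC : S_CJ) (hL : S_CLO) (hW : S_WID) (hS : S_SUMU) (hJ : S_JEN) : S_STM := by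
  classical
  intro N m k w0 P z lam s u w Xs Ys st A hc hok hIH hA hfl hPP
  have hP0 : (0 : ℝ) < P := by
    have h1 := hc.hP
    have : 0 < P := by omega
    exact_mod_cast this
  have hN1 : (1 : ℝ) ≤ N := by exact_mod_cast hc.hN
  have hz1 : (1 : ℝ) ≤ z := by exact_mod_cast hc.hz
  -- closures
  have hcl : ∀ V : Finset (Fin N), ∃ J' : Finset (Fin m), st.J ⊆ J' ∧
      J'.card ≤ (st.T0 ∪ V).card ∧ (s.Nb J' \ (st.T0 ∪ V)).card ≤ (k + 3) * J'.card ∧
      ((st.T0 ∪ V).card ≤ w0 → s.Closed ((st.T0 ∪ V) ∪ s.Nb J') J') := by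
    intro V
    refine hL N m k w0 s (st.T0 ∪ V) st.J (hok.h1.trans (card_le_card subset_union_left))
      (le_trans (card_le_card ?_) hok.h2)
    exact sdiff_subset_sdiff (le_refl _) subset_union_left
  choose JV hJ1 hJ2 hJ3 hJ4 using hcl
  let sV : Finset (Fin N) → St N m := fun V =>
    ⟨st.T0 ∪ V, JV V, st.uX, st.uY + V.card, st.nl, st.nh⟩
  have hTV : ∀ V, st.T s ∪ V ⊆ (sV V).T s := by
    intro V
    show (st.T0 ∪ s.Nb st.J) ∪ V ⊆ (st.T0 ∪ V) ∪ s.Nb (JV V)
    refine union_subset (union_subset (subset_union_left.trans subset_union_left) ?_)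
      (subset_union_right.trans subset_union_left)
    exact (biUnion_subset_biUnion_of_subset_left _ (hJ1 V)).trans subset_union_right
  have hokV : ∀ V, (sV V).Ok s z := fun V =>
    { h1 := hJ2 V
      h2 := hJ3 V
      h3 := by
        show (st.T0 ∪ V).card ≤ st.uX + (st.uY + V.card)
        have h1 := card_union_le st.T0 V
        have h2 := hok.h3
        omega
      h4 := hJ4 V
      h5 := hok.h5 }
  have hle : ∀ V, ((sV V).T s).card ≤ N := fun V => by
    have h := card_le_univ ((sV V).T s)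
    rwa [Fintype.card_fin] at h
  have hcard : ∀ V : Finset (Fin N), Disjoint V (st.T s) →
      (st.T s).card + V.card ≤ ((sV V).T s).card := by
    intro V hd
    rw [← card_union_of_disjoint hd.symm]
    exact card_le_card (hTV V)
  have hmea : ∀ V : Finset (Fin N), V.Nonempty → Disjoint V (st.T s) →
      (sV V).mea s z < st.mea s z := by
    intro V hV hd
    have h1 := hcard V hd
    have h2 := hle V
    have h3 := hV.card_pos
    show (N - ((sV V).T s).card) + (8 * z + 1 - st.nh) + (z + 1 - st.nl) <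
      (N - (st.T s).card) + (8 * z + 1 - st.nh) + (z + 1 - st.nl)
    omega
  have hw := fun V => hW N m k w0 P z (st.T s).card ((sV V).T s).card V.card st.uX st.uY st.nl
    st.nh hc.hN hc.hz hc.hP hc.hPe (card_le_card (subset_union_left.trans (hTV V))) (hle V)
  have hqx : (Fintype.card (Fin (P ^ 16)) : ℝ) = (P : ℝ) ^ 16 := by
    rw [Fintype.card_fin]
    push_cast
    rfl
  have hqy : (Fintype.card (Fin (P ^ 16) → ZMod 2) : ℝ) = 2 ^ (P ^ 16) := by
    rw [Fintype.card_fun, ZMod.card, Fintype.card_fin]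
    push_cast
    rfl
  obtain ⟨hb2, _, he2, hb0, hcc0, hkx0, hky0, hmm0, _⟩ := hW N m k w0 P z (st.T s).card
    (st.T s).card 0 st.uX st.uY st.nl st.nh hc.hN hc.hz hc.hP hc.hPe le_rfl
    (by
      have h := card_le_univ (st.T s)
      rwa [Fintype.card_fin] at h)
  have hkx0' : 0 < st.kx s P z := hkx0
  have hky0' : 0 < st.ky s P z := hky0
  have hmm0' : 0 < st.mm s P z := hmm0
  have hz32 : 1 / (32 * (z : ℝ)) ≤ 1 / 32 := by
    apply one_div_le_one_div_of_le (by norm_num)
    linarith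
  have hkxV : ∀ V, 0 < (sV V).kx s P z := fun V =>
    (hW N m k w0 P z ((sV V).T s).card ((sV V).T s).card 0 (sV V).uX (sV V).uY (sV V).nl
      (sV V).nh hc.hN hc.hz hc.hP hc.hPe le_rfl (hle V)).2.2.2.2.2.1
  have hkyV : ∀ V, 0 < (sV V).ky s P z := fun V =>
    (hW N m k w0 P z ((sV V).T s).card ((sV V).T s).card 0 (sV V).uX (sV V).uY (sV V).nl
      (sV V).nh hc.hN hc.hz hc.hP hc.hPe le_rfl (hle V)).2.2.2.2.2.2.1
  have hmmV : ∀ V, 0 < (sV V).mm s P z := fun V =>
    (hW N m k w0 P z ((sV V).T s).card ((sV V).T s).card 0 (sV V).uX (sV V).uY (sV V).nl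
      (sV V).nh hc.hN hc.hz hc.hP hc.hPe le_rfl (hle V)).2.2.2.2.2.2.2.1
  have hsd1 : ∀ V, ((sV V).T s \ st.T s).card = ((sV V).T s).card - (st.T s).card := fun V =>
    card_sdiff_of_subset (subset_union_left.trans (hTV V))
  have hsd2 : ∀ V : Finset (Fin N), Disjoint V (st.T s) →
      ((sV V).T s \ (st.T s ∪ V)).card = ((sV V).T s).card - ((st.T s).card + V.card) := by
    intro V hd
    rw [card_sdiff_of_subset (hTV V), card_union_of_disjoint hd.symm]
  have hsum : ∑ V ∈ univ.filter (fun V : Finset (Fin N) => V.Nonempty ∧ Disjoint V (st.T s)),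
      (1 / (8 * (N : ℝ))) ^ V.card ≤ 1 / 7 := by
    refine le_trans (sum_le_sum_of_subset_of_nonneg ?_ ?_) (hS N z hc.hN hc.hz).1
    · intro V hV
      rw [mem_filter] at hV ⊢
      exact ⟨hV.1, hV.2.1⟩
    · intro V _ _
      positivity
  have key := hC N (Fin (P ^ 16)) (Fin (P ^ 16) → ZMod 2) (bb P) (bb P / cc P) (Tr u w)
    (DD s P) Ys (st.T s) A (fun V => (sV V).T s)
    (fun V ww => (sV V).kx s P z * Real.sqrt ((cyl ((sV V).T s) ww A).card))
    (fun V => (sV V).ky s P z) (fun V => (sV V).mm s P z)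
    (27 / 32 * (st.kx s P z * Real.sqrt A.card)) (st.ky s P z)
    (st.ky s P z * (1 - 1 / (32 * z))) (st.mm s P z / 2) hb0.le (by rw [hqy, hb2])
    (div_pos hb0 hcc0) hfl hky0'.le (by nlinarith) (by positivity) ?_ (by rw [he2]; exact hPP)
  · refine pp_mono key ?_ le_rfl ?_
    · have h1 : ∀ V ∈ univ.filter (fun V : Finset (Fin N) => V.Nonempty ∧ Disjoint V (st.T s)),
          ∑ ww : (sV V).T s → Fin (P ^ 16), (sV V).kx s P z *
            Real.sqrt ((cyl ((sV V).T s) ww A).card) ≤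
          (1 / (8 * (N : ℝ))) ^ V.card * (st.kx s P z * Real.sqrt A.card) := by
        intro V hV
        have h2 := (hJ N (Fin (P ^ 16)) ((P : ℝ) ^ 8) (st.T s) ((sV V).T s) ∅ A (by positivity)
          (by rw [hqx]; ring) (subset_union_left.trans (hTV V)) hfl).2.2.2.1
        have h3 := (hw V).2.2.2.2.2.2.2.2.2.2.1
        rw [← mul_sum]
        calc (sV V).kx s P z * ∑ ww : (sV V).T s → Fin (P ^ 16),
              Real.sqrt ((cyl ((sV V).T s) ww A).card)
            ≤ (sV V).kx s P z * (((P : ℝ) ^ 8) ^ ((sV V).T s \ st.T s).card *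
                Real.sqrt A.card) := mul_le_mul_of_nonneg_left h2 (hkxV V).le
          _ = ((sV V).kx s P z * ((P : ℝ) ^ 8) ^ (((sV V).T s).card - (st.T s).card)) *
                Real.sqrt A.card := by rw [hsd1]; ring
          _ = (st.kx s P z * (1 / (8 * (N : ℝ))) ^ V.card) * Real.sqrt A.card :=
              congrArg (fun t => t * Real.sqrt A.card) h3
          _ = _ := by ring
      have h4 := sum_le_sum h1
      rw [← sum_mul] at h4
      have h5 := mul_le_mul_of_nonneg_right hsum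
        (mul_nonneg hkx0'.le (Real.sqrt_nonneg (A.card : ℝ)))
      have h6 : 0 ≤ st.kx s P z * Real.sqrt A.card :=
        mul_nonneg hkx0'.le (Real.sqrt_nonneg _)
      have h7 := h4.trans h5
      calc _ ≤ 27 / 32 * (st.kx s P z * Real.sqrt A.card) +
            1 / 7 * (st.kx s P z * Real.sqrt A.card) := add_le_add_right h7 _
        _ ≤ _ := by linarith
    · have h1 : ∀ V ∈ univ.filter (fun V : Finset (Fin N) => V.Nonempty ∧ Disjoint V (st.T s)),
          (sV V).mm s P z * (Fintype.card (Fin (P ^ 16)) : ℝ) ^ ((sV V).T s \ st.T s).card *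
            (Fintype.card (Fin (P ^ 16) → ZMod 2) : ℝ) ^ ((sV V).T s \ st.T s).card ≤
          (1 / (8 * (N : ℝ))) ^ V.card * st.mm s P z := by
        intro V hV
        rw [mem_filter] at hV
        have h3 := (hw V).2.2.2.2.2.2.2.2.2.2.2.2.2.2.2.2.2.1
        rw [hqx, hqy, hsd1]
        have h4 : V.card ≤ ((sV V).T s).card - (st.T s).card := by
          have := hcard V hV.2.2
          omega
        have h5 : (1 / (8 * (N : ℝ))) ^ (((sV V).T s).card - (st.T s).card) ≤
            (1 / (8 * (N : ℝ))) ^ V.card := by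
          apply pow_le_pow_of_le_one (by positivity) _ h4
          rw [div_le_one (by positivity)]
          linarith
        calc _ = st.mm s P z * (1 / (8 * (N : ℝ))) ^ (((sV V).T s).card - (st.T s).card) := h3
          _ ≤ st.mm s P z * (1 / (8 * (N : ℝ))) ^ V.card :=
              mul_le_mul_of_nonneg_left h5 hmm0'.le
          _ = _ := mul_comm _ _
      have h4 := sum_le_sum h1
      rw [← sum_mul] at h4
      have h5 := mul_le_mul_of_nonneg_right hsum hmm0'.le
      calc _ ≤ st.mm s P z / 2 + 1 / 7 * st.mm s P z := add_le_add_right (h4.trans h5) _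
        _ ≤ _ := by linarith
  · intro V hV hd
    refine ⟨hTV V, (hkyV V).le, (hmmV V).le, ?_, ?_⟩
    · intro ww
      have h1 := (hJ N (Fin (P ^ 16)) ((P : ℝ) ^ 8) (st.T s) ((sV V).T s) ∅ A (by positivity)
          (by rw [hqx]; ring) (subset_union_left.trans (hTV V)) hfl).1 ww
      exact hIH (sV V) (hokV V) (hmea V hV hd) (cyl ((sV V).T s) ww A)
        ((cyl_sub _ _ _).trans hA) h1
    · have h3 := (hw V).2.2.2.2.2.2.2.2.2.2.2.2.2.2.1 (hcard V hd)
      rw [hqx, hsd1, hsd2 V hd]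
      exact h3.le

end Pool.Agent.H30.CPX
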